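import Mathlib

set_option autoImplicit false

/-!
# The biased Maker-Breaker domination game: definitions
-/

namespace Pool.Agent.MBDom

variable {V : Type*} [Fintype V] [DecidableEq V]

/-- `D` is a dominating set of `G`: every vertex outside `D` has a neighbour in `D`. -/
def IsDominating (G : SimpleGraph V) (D : Finset V) : Prop :=
  ∀ v, v ∉ D → ∃ u ∈ D, G.Adj v u

/-- The domination number: the minimum size of a dominating set. -/
noncomputable def dominationNumber (G : SimpleGraph V) : ℕ :=
  sInf {k | ∃ D : Finset V, D.card = k ∧ IsDominating G D}

/-- Dominator-first game.  `DomFirstWins G b t D S`: when `D` is the set claimed so far by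
Dominator, `S` the set claimed so far by Staller and it is Dominator's turn, Dominator can force
that, after `t` further rounds (a round is a turn of Dominator claiming at most `b` unclaimed
vertices, followed by a turn of Staller claiming at most one unclaimed vertex), the set she has
claimed is dominating. -/
def DomFirstWins (G : SimpleGraph V) (b : ℕ) : ℕ → Finset V → Finset V → Prop
  | 0, D, _ => IsDominating G D
  | t + 1, D, S => ∃ X : Finset V, X.card ≤ b ∧ Disjoint X (D ∪ S) ∧
      ∀ Y : Finset V, Y.card ≤ 1 → Disjoint Y (D ∪ X ∪ S) →
        DomFirstWins G b t (D ∪ X) (S ∪ Y)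

/-- Staller-first game.  `StallFirstWins G b t D S`: when `D` is the set claimed so far by
Dominator, `S` the set claimed so far by Staller and it is Staller's turn, Dominator can force
that, after `t` further rounds (a round is a turn of Staller claiming at most one unclaimed
vertex, followed by a turn of Dominator claiming at most `b` unclaimed vertices), the set she has
claimed is dominating. -/
def StallFirstWins (G : SimpleGraph V) (b : ℕ) : ℕ → Finset V → Finset V → Prop
  | 0, D, _ => IsDominating G D
  | t + 1, D, S => ∀ Y : Finset V, Y.card ≤ 1 → Disjoint Y (D ∪ S) →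
      ∃ X : Finset V, X.card ≤ b ∧ Disjoint X (D ∪ (S ∪ Y)) ∧
        StallFirstWins G b t (D ∪ X) (S ∪ Y)

/-- `γ_MB(G,b)`: the smallest number of rounds within which Dominator can force a win when
Dominator moves first (`⊤` if there is none). -/
noncomputable def gammaMB (G : SimpleGraph V) (b : ℕ) : ℕ∞ :=
  sInf {x : ℕ∞ | ∃ t : ℕ, x = t ∧ DomFirstWins G b t ∅ ∅}

/-- `γ'_MB(G,b)`: the smallest number of rounds within which Dominator can force a win when
Staller moves first (`⊤` if there is none). -/
noncomputable def gammaMB' (G : SimpleGraph V) (b : ℕ) : ℕ∞ :=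
  sInf {x : ℕ∞ | ∃ t : ℕ, x = t ∧ StallFirstWins G b t ∅ ∅}

end Pool.Agent.MBDom
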