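import Mathlib
import Pool.Agent.Lib.MP_f1bc00_pr.Defs

set_option autoImplicit false
set_option linter.unusedSectionVars false
set_option linter.deprecated false

namespace Pool.Agent.MBDom

variable {V : Type*} [Fintype V] [DecidableEq V]

lemma IsDominating.mono {G : SimpleGraph V} {D E : Finset V} (h : IsDominating G D)
    (hDE : D ⊆ E) : IsDominating G E := by
  intro v hv
  obtain ⟨u, hu, huv⟩ := h v (fun hvD => hv (hDE hvD))
  exact ⟨u, hDE hu, huv⟩

/-- The last move of Staller before Dominator's last turn. -/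
lemma staller_blocks {G : SimpleGraph V} {b r : ℕ} (hb : 1 ≤ b)
    (h1 : ∀ D : Finset V, IsDominating G D → r ≤ D.card)
    (h2 : ∀ A B : Finset V, IsDominating G A → IsDominating G B → A.card = r → B.card = r →
      r ≤ (A ∩ B).card + b → A = B)
    (D S : Finset V) (hD : D.card + b ≤ r) :
    ∃ Y : Finset V, Y.card ≤ 1 ∧ Disjoint Y (D ∪ S) ∧
      ∀ X : Finset V, X.card ≤ b → Disjoint X (D ∪ (S ∪ Y)) → ¬ IsDominating G (D ∪ X) := by
  by_cases hex : ∃ B : Finset V, B.card ≤ b ∧ Disjoint B (D ∪ S) ∧ IsDominating G (D ∪ B)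
  · obtain ⟨B, hBc, hBd, hBdom⟩ := hex
    have hle : r ≤ (D ∪ B).card := h1 _ hBdom
    have hle2 : (D ∪ B).card ≤ D.card + B.card := Finset.card_union_le _ _
    have hBcard : B.card = b := by omega
    have hne : B.Nonempty := by
      rw [← Finset.card_pos]; omega
    obtain ⟨v, hv⟩ := hne
    refine ⟨{v}, by simp, ?_, ?_⟩
    · rw [Finset.disjoint_singleton_left]
      exact Finset.disjoint_left.mp hBd hv
    · intro X hX hXd hXdom
      have hle3 : r ≤ (D ∪ X).card := h1 _ hXdom
      have hle4 : (D ∪ X).card ≤ D.card + X.card := Finset.card_union_le _ _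
      have hDD : D ⊆ (D ∪ B) ∩ (D ∪ X) :=
        Finset.subset_inter Finset.subset_union_left Finset.subset_union_left
      have hcard := Finset.card_le_card hDD
      have heq := h2 (D ∪ B) (D ∪ X) hBdom hXdom (by omega) (by omega) (by omega)
      have hvm : v ∈ D ∪ X := by
        rw [← heq]; exact Finset.mem_union_right _ hv
      rcases Finset.mem_union.mp hvm with hvD | hvX
      · exact Finset.disjoint_left.mp hBd hv (Finset.mem_union_left _ hvD)
      · exact Finset.disjoint_left.mp hXd hvX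
          (Finset.mem_union_right _ (Finset.mem_union_right _ (Finset.mem_singleton_self v)))
  · refine ⟨∅, by simp, by simp, ?_⟩
    intro X hX hXd hXdom
    refine hex ⟨X, hX, ?_, hXdom⟩
    simpa using hXd

lemma not_domFirstWins {G : SimpleGraph V} {b r : ℕ} (hb : 1 ≤ b)
    (h1 : ∀ D : Finset V, IsDominating G D → r ≤ D.card)
    (h2 : ∀ A B : Finset V, IsDominating G A → IsDominating G B → A.card = r → B.card = r →
      r ≤ (A ∩ B).card + b → A = B)
    (t : ℕ) : ∀ D S : Finset V, D.card + b * (t + 2) ≤ r → ¬ DomFirstWins G b (t + 2) D S := by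
  induction t with
  | zero =>
    intro D S hD hw
    obtain ⟨X, hX, hXd, hY⟩ := hw
    have hle : (D ∪ X).card ≤ D.card + X.card := Finset.card_union_le _ _
    obtain ⟨Y, hYc, hYd, hno⟩ := staller_blocks hb h1 h2 (D ∪ X) S (by omega)
    obtain ⟨X', hX', hX'd, hfin⟩ := hY Y hYc hYd
    have hdom := hfin ∅ (by simp) (by simp)
    exact hno X' hX' hX'd hdom
  | succ t ih =>
    intro D S hD hw
    obtain ⟨X, hX, hXd, hY⟩ := hw
    have hle : (D ∪ X).card ≤ D.card + X.card := Finset.card_union_le _ _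
    have hw2 := hY ∅ (by simp) (by simp)
    refine ih (D ∪ X) (S ∪ ∅) ?_ hw2
    have : b * (t + 1 + 2) = b * (t + 2) + b := by ring
    omega

lemma not_stallFirstWins {G : SimpleGraph V} {b r : ℕ} (hb : 1 ≤ b)
    (h1 : ∀ D : Finset V, IsDominating G D → r ≤ D.card)
    (h2 : ∀ A B : Finset V, IsDominating G A → IsDominating G B → A.card = r → B.card = r →
      r ≤ (A ∩ B).card + b → A = B)
    (t : ℕ) : ∀ D S : Finset V, D.card + b * (t + 1) ≤ r → ¬ StallFirstWins G b (t + 1) D S := by
  induction t with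
  | zero =>
    intro D S hD hw
    obtain ⟨Y, hYc, hYd, hno⟩ := staller_blocks hb h1 h2 D S (by omega)
    obtain ⟨X', hX', hX'd, hfin⟩ := hw Y hYc hYd
    exact hno X' hX' hX'd hfin
  | succ t ih =>
    intro D S hD hw
    obtain ⟨X, hX, hXd, hY⟩ := hw ∅ (by simp) (by simp)
    have hle : (D ∪ X).card ≤ D.card + X.card := Finset.card_union_le _ _
    refine ih (D ∪ X) (S ∪ ∅) ?_ hY
    have : b * (t + 1 + 1) = b * (t + 1) + b := by ring
    omega

/-- If there are two spare vertices, near-uniqueness of dominating `r`-sets excludes smaller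
dominating sets. -/
lemma le_card_of_unique {G : SimpleGraph V} {b r : ℕ} (hb : 1 ≤ b)
    (hr : r + 1 ≤ Fintype.card V)
    (h2 : ∀ A B : Finset V, IsDominating G A → IsDominating G B → A.card = r → B.card = r →
      r ≤ (A ∩ B).card + b → A = B) :
    ∀ D : Finset V, IsDominating G D → r ≤ D.card := by
  intro D hD
  by_contra hlt
  push Not at hlt
  obtain ⟨D', hDD', hD'c⟩ := Finset.exists_superset_card_eq (s := D) (n := r - 1) (by omega)
    (by omega)
  have hcompl : 1 < (D'ᶜ).card := by
    rw [Finset.card_compl]; omega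
  obtain ⟨v, hv, w, hw, hvw⟩ := Finset.one_lt_card.mp hcompl
  rw [Finset.mem_compl] at hv hw
  have hdom := hD.mono hDD'
  have hA : (insert v D').card = r := by rw [Finset.card_insert_of_notMem hv]; omega
  have hB : (insert w D').card = r := by rw [Finset.card_insert_of_notMem hw]; omega
  have hsub : D' ⊆ insert v D' ∩ insert w D' :=
    Finset.subset_inter (Finset.subset_insert _ _) (Finset.subset_insert _ _)
  have hcard := Finset.card_le_card hsub
  have heq := h2 _ _ (hdom.mono (Finset.subset_insert v D')) (hdom.mono (Finset.subset_insert w D'))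
    hA hB (by omega)
  have : v ∈ insert w D' := by rw [← heq]; exact Finset.mem_insert_self _ _
  rcases Finset.mem_insert.mp this with h | h
  · exact hvw h
  · exact hv h

lemma dominationNumber_eq {G : SimpleGraph V} {r : ℕ}
    (h1 : ∀ D : Finset V, IsDominating G D → r ≤ D.card)
    (h3 : ∃ D : Finset V, IsDominating G D ∧ D.card = r) : dominationNumber G = r := by
  obtain ⟨D, hD, hDc⟩ := h3
  unfold dominationNumber
  apply le_antisymm
  · exact Nat.sInf_le ⟨D, hDc, hD⟩
  · refine le_csInf ⟨r, D, hDc, hD⟩ ?_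
    rintro k ⟨E, hE, hEd⟩
    rw [← hE]; exact h1 E hEd

lemma gammaMB_ne {G : SimpleGraph V} {b k : ℕ} (h : ¬ DomFirstWins G b k ∅ ∅) :
    gammaMB G b ≠ k := by
  intro heq
  unfold gammaMB at heq
  have hne : {x : ℕ∞ | ∃ t : ℕ, x = t ∧ DomFirstWins G b t ∅ ∅}.Nonempty := by
    by_contra hemp
    rw [Set.not_nonempty_iff_eq_empty] at hemp
    rw [hemp, sInf_empty] at heq
    exact ENat.top_ne_coe k heq
  have hmem := csInf_mem hne
  rw [heq] at hmem
  obtain ⟨t, ht, hw⟩ := hmem
  have : k = t := by exact_mod_cast ht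
  subst this
  exact h hw

lemma gammaMB'_ne {G : SimpleGraph V} {b k : ℕ} (h : ¬ StallFirstWins G b k ∅ ∅) :
    gammaMB' G b ≠ k := by
  intro heq
  unfold gammaMB' at heq
  have hne : {x : ℕ∞ | ∃ t : ℕ, x = t ∧ StallFirstWins G b t ∅ ∅}.Nonempty := by
    by_contra hemp
    rw [Set.not_nonempty_iff_eq_empty] at hemp
    rw [hemp, sInf_empty] at heq
    exact ENat.top_ne_coe k heq
  have hmem := csInf_mem hne
  rw [heq] at hmem
  obtain ⟨t, ht, hw⟩ := hmem
  have : k = t := by exact_mod_cast ht
  subst this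
  exact h hw

/-- Deterministic part: under existence of a dominating `bk`-set and near-uniqueness, both game
numbers differ from `⌈γ/b⌉`. -/
theorem gamma_ne {G : SimpleGraph V} {b k : ℕ} (hb : 1 ≤ b) (hk : 2 ≤ k)
    (hr : b * k + 1 ≤ Fintype.card V)
    (h2 : ∀ A B : Finset V, IsDominating G A → IsDominating G B → A.card = b * k →
      B.card = b * k → b * k ≤ (A ∩ B).card + b → A = B)
    (h3 : ∃ D : Finset V, IsDominating G D ∧ D.card = b * k) :
    gammaMB G b ≠ (⌈(dominationNumber G : ℚ) / b⌉₊ : ℕ) ∧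
      gammaMB' G b ≠ (⌈(dominationNumber G : ℚ) / b⌉₊ : ℕ) := by
  have h1 := le_card_of_unique hb hr h2
  have hdn := dominationNumber_eq h1 h3
  have hceil : ⌈(dominationNumber G : ℚ) / b⌉₊ = k := by
    rw [hdn]
    have hb0 : (b : ℚ) ≠ 0 := by exact_mod_cast (by omega : b ≠ 0)
    have : ((b * k : ℕ) : ℚ) / b = (k : ℚ) := by
      push_cast
      field_simp
    rw [this, Nat.ceil_natCast]
  rw [hceil]
  obtain ⟨t, rfl⟩ : ∃ t, k = t + 2 := ⟨k - 2, by omega⟩
  constructor
  · apply gammaMB_ne
    exact not_domFirstWins hb h1 h2 t ∅ ∅ (by simp)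
  · apply gammaMB'_ne
    exact not_stallFirstWins hb h1 h2 (t + 1) ∅ ∅ (by simp)

end Pool.Agent.MBDom
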