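import Mathlib
import Pool.Agent.Lib.MP_f1bc00_pr.Game

set_option autoImplicit false
set_option linter.unusedSectionVars false
set_option linter.deprecated false

open MeasureTheory Measure ProbabilityTheory unitInterval
open scoped ENNReal

namespace Pool.Agent.MBDom

variable {V : Type*} [Fintype V] [DecidableEq V]

lemma measurableSet_graph (S : Set (SimpleGraph V)) : MeasurableSet S := by
  have h : S = SimpleGraph.edgeSet ⁻¹' (SimpleGraph.edgeSet '' S) :=
    (Set.preimage_image_eq S SimpleGraph.edgeSet_injective).symm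
  rw [h]
  exact SimpleGraph.measurable_edgeSet (Set.toFinite _).measurableSet

/-- The Bernoulli law on `Prop`. -/
noncomputable def bern (p : I) : Measure Prop :=
  toNNReal p • dirac True + toNNReal (σ p) • dirac False

/-- the law of one edge-slot -/
noncomputable def slot (p : I) (e : Sym2 V) : Measure Prop :=
  toNNReal p • dirac (e ∈ (Sym2.diagSet)ᶜ) + toNNReal (σ p) • dirac False

instance instProbSlot (p : I) (e : Sym2 V) : IsProbabilityMeasure (slot p e) := by
  constructor
  simp only [slot, coe_add, coe_nnreal_smul_apply, Pi.add_apply]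
  simp only [measure_univ, mul_one]
  have h1 : (toNNReal p : ℝ≥0∞) + (toNNReal (σ p) : ℝ≥0∞) = ((toNNReal p + toNNReal (σ p) : NNReal) : ℝ≥0∞) := by
    push_cast; rfl
  rw [h1]
  have h2 : toNNReal p + toNNReal (σ p) = 1 := by
    ext
    push_cast
    simp
  rw [h2]
  simp

instance instProbBern (p : I) : IsProbabilityMeasure (bern p) := by
  constructor
  simp only [bern, coe_add, coe_nnreal_smul_apply, Pi.add_apply]
  simp only [measure_univ, mul_one]
  have h1 : (toNNReal p : ℝ≥0∞) + (toNNReal (σ p) : ℝ≥0∞) = ((toNNReal p + toNNReal (σ p) : NNReal) : ℝ≥0∞) := by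
    push_cast; rfl
  rw [h1]
  have h2 : toNNReal p + toNNReal (σ p) = 1 := by
    ext
    push_cast
    simp
  rw [h2]
  simp

lemma slot_eq_bern (p : I) {e : Sym2 V} (he : ¬ e.IsDiag) : slot p e = bern p := by
  unfold slot bern
  have : (e ∈ (Sym2.diagSet)ᶜ) = True := by
    simp [he]
  rw [this]

lemma graph_apply (p : I) (S : Set (SimpleGraph V)) :
    SimpleGraph.binomialRandom V p S =
      infinitePi (fun e : Sym2 V => slot p e) {ω | SimpleGraph.fromEdgeSet {e | ω e} ∈ S} := by
  rw [SimpleGraph.binomialRandom_eq_map, setBernoulli_eq_map, Measure.map_map, Measure.map_apply]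
  · rfl
  · apply Measurable.comp
    · exact SimpleGraph.measurable_fromEdgeSet
    · exact measurable_of_finite _
  · exact measurableSet_graph S
  · exact SimpleGraph.measurable_fromEdgeSet
  · exact measurable_of_finite _

/-- Independence over the vertices outside `U` of the edges towards `U`. -/
theorem prob_blocks (p : I) (U : Finset V) (E : Set (U → Prop)) :
    SimpleGraph.binomialRandom V p
        {G | ∀ w : (Uᶜ : Finset V), (fun a : U => G.Adj (w : V) (a : V)) ∈ E} =
      (infinitePi (fun _ : U => bern p) E) ^ (Uᶜ : Finset V).card := by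
  classical
  rw [graph_apply]
  set f : (Uᶜ : Finset V) × U → Sym2 V := fun x => s((x.1 : V), (x.2 : V)) with hf
  have hne : ∀ (w : (Uᶜ : Finset V)) (a : U), (w : V) ≠ (a : V) := by
    intro w a h
    have := w.2
    rw [Finset.mem_compl, h] at this
    exact this a.2
  have hinj : Function.Injective f := by
    rintro ⟨w, a⟩ ⟨w', a'⟩ h
    simp only [hf, Sym2.eq_iff] at h
    rcases h with ⟨h1, h2⟩ | ⟨h1, h2⟩
    · ext <;> simp_all
    · exact absurd h1 (hne w a')
  have hset : {ω : Sym2 V → Prop | SimpleGraph.fromEdgeSet {e | ω e} ∈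
      {G : SimpleGraph V | ∀ w : (Uᶜ : Finset V), (fun a : U => G.Adj (w : V) (a : V)) ∈ E}} =
      (fun (ω : Sym2 V → Prop) (x : (Uᶜ : Finset V) × U) => ω (f x)) ⁻¹'
        {η | ∀ w : (Uᶜ : Finset V), (fun a : U => η (w, a)) ∈ E} := by
    ext ω
    simp only [Set.mem_setOf_eq, Set.mem_preimage, SimpleGraph.fromEdgeSet_adj]
    refine forall_congr' fun w => ?_
    have : (fun a : U => (ω s((w : V), (a : V)) ∧ (w : V) ≠ (a : V))) =
        fun a : U => ω (f (w, a)) := by
      funext a
      simp [hf, hne w a]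
    rw [← this]
  rw [hset, ← Measure.map_apply (measurable_of_finite _) (Set.toFinite _).measurableSet,
    map_infinitePi_infinitePi_of_inj hinj]
  have hslot : (fun x : (Uᶜ : Finset V) × U => slot p (f x)) =
      fun x : (Uᶜ : Finset V) × U => (fun (_ : (Uᶜ : Finset V)) (_ : U) => bern p) x.1 x.2 := by
    funext x
    apply slot_eq_bern
    simp only [hf, Sym2.isDiag_iff_proj_eq]
    exact hne x.1 x.2
  have hset2 : {η : (Uᶜ : Finset V) × U → Prop | ∀ w : (Uᶜ : Finset V),
      (fun a : U => η (w, a)) ∈ E} =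
      (MeasurableEquiv.curry (Uᶜ : Finset V) U Prop) ⁻¹' (Set.univ.pi fun _ => E) := by
    ext η
    simp only [Set.mem_setOf_eq, Set.mem_preimage, Set.mem_pi, Set.mem_univ, true_imp_iff]
    rfl
  rw [hset2]
  rw [← Measure.map_apply (MeasurableEquiv.measurable _) (Set.toFinite _).measurableSet]
  have hc := infinitePi_map_curry (ι := (Uᶜ : Finset V)) (κ := U) (fun _ _ => bern p)
  have hms : infinitePi (fun x : (Uᶜ : Finset V) × U => slot p (f x)) =
      infinitePi (fun _ : (Uᶜ : Finset V) × U => bern p) := by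
    simp only [hslot]
  rw [hms]
  refine (congrArg (fun m => m (Set.univ.pi fun _ => E)) hc).trans ?_
  rw [← Finset.coe_univ, infinitePi_pi]
  · rw [Finset.prod_const]
    congr 1
    simp
  · intro i _
    exact (Set.toFinite _).measurableSet

lemma bern_false (p : I) : bern p {False} = toNNReal (σ p) := by
  simp [bern]

/-- Probability that all the slots in `A ⊆ U` are empty. -/
lemma prob_empty (p : I) (U : Finset V) (A : Finset V) (hA : A ⊆ U) :
    infinitePi (fun _ : U => bern p) {η | ∀ a : U, (a : V) ∈ A → ¬ η a} =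
      (toNNReal (σ p) : ℝ≥0∞) ^ A.card := by
  classical
  set s : Finset U := Finset.univ.filter (fun a : U => (a : V) ∈ A) with hs
  have hset : {η : U → Prop | ∀ a : U, (a : V) ∈ A → ¬ η a} =
      (s : Set U).pi (fun _ => {False}) := by
    ext η
    simp [hs, Set.mem_pi]
  rw [hset, infinitePi_pi]
  · rw [Finset.prod_const, bern_false]
    congr 1
    have : s.map (Function.Embedding.subtype _) = A := by
      ext a
      simp only [hs, Finset.mem_map, Finset.mem_filter, Finset.mem_univ, true_and,
        Function.Embedding.coe_subtype, Subtype.exists, exists_and_left, exists_prop]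
      constructor
      · rintro ⟨b, hb, hb2, rfl⟩; exact hb
      · intro ha; exact ⟨a, ha, hA ha, rfl⟩
    rw [← this, Finset.card_map]
  · intro i _
    exact (Set.toFinite _).measurableSet

/-- The event that some slot in `A` is occupied. -/
def hitEv (U A : Finset V) : Set (U → Prop) := {η | ∃ a : U, (a : V) ∈ A ∧ η a}

lemma compl_hitEv (U A : Finset V) :
    (hitEv U A)ᶜ = {η : U → Prop | ∀ a : U, (a : V) ∈ A → ¬ η a} := by
  ext η
  simp only [hitEv, Set.mem_compl_iff, Set.mem_setOf_eq, not_exists, not_and]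

lemma prob_empty_real (p : I) (U : Finset V) (A : Finset V) (hA : A ⊆ U) :
    (infinitePi (fun _ : U => bern p)).real ((hitEv U A)ᶜ) = (1 - (p : ℝ)) ^ A.card := by
  rw [compl_hitEv, measureReal_def, prob_empty p U A hA]
  simp

lemma prob_hit (p : I) (U : Finset V) (A : Finset V) (hA : A ⊆ U) :
    (infinitePi (fun _ : U => bern p)).real (hitEv U A) = 1 - (1 - (p : ℝ)) ^ A.card := by
  have h := prob_empty_real p U A hA
  rw [probReal_compl_eq_one_sub (Set.toFinite _).measurableSet] at h
  linarith

lemma prob_hit2 (p : I) (U : Finset V) (A B : Finset V) (hA : A ⊆ U) (hB : B ⊆ U) :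
    (infinitePi (fun _ : U => bern p)).real (hitEv U A ∩ hitEv U B) =
      1 - (1 - (p : ℝ)) ^ A.card - (1 - (p : ℝ)) ^ B.card + (1 - (p : ℝ)) ^ (A ∪ B).card := by
  have h1 := prob_empty_real p U A hA
  have h2 := prob_empty_real p U B hB
  have h3 := prob_empty_real p U (A ∪ B) (Finset.union_subset hA hB)
  have h4 : (hitEv U (A ∪ B))ᶜ = (hitEv U A)ᶜ ∩ (hitEv U B)ᶜ := by
    rw [compl_hitEv, compl_hitEv, compl_hitEv]
    ext η
    simp only [Finset.mem_union, Set.mem_setOf_eq, Set.mem_inter_iff]
    constructor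
    · intro h
      exact ⟨fun a ha => h a (Or.inl ha), fun a ha => h a (Or.inr ha)⟩
    · rintro ⟨ha, hb⟩ a (h | h)
      · exact ha a h
      · exact hb a h
  rw [h4] at h3
  have h5 := measureReal_union_add_inter (μ := infinitePi (fun _ : U => bern p))
    (s := (hitEv U A)ᶜ) (t := (hitEv U B)ᶜ) (Set.toFinite _).measurableSet
  have h6 : (hitEv U A ∩ hitEv U B)ᶜ = (hitEv U A)ᶜ ∪ (hitEv U B)ᶜ := Set.compl_inter _ _
  have h7 := probReal_compl_eq_one_sub (μ := infinitePi (fun _ : U => bern p))
    (s := hitEv U A ∩ hitEv U B) (Set.toFinite _).measurableSet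
  rw [h6] at h7
  linarith

lemma prob_blocks_real (p : I) (U : Finset V) (E : Set (U → Prop)) :
    (SimpleGraph.binomialRandom V p).real
        {G | ∀ w : (Uᶜ : Finset V), (fun a : U => G.Adj (w : V) (a : V)) ∈ E} =
      ((infinitePi (fun _ : U => bern p)).real E) ^ (Fintype.card V - U.card) := by
  rw [measureReal_def, prob_blocks p U E, ENNReal.toReal_pow, Finset.card_compl]
  rfl

/-- The probability that a given set is dominating. -/
theorem prob_dom (p : I) (A : Finset V) :
    (SimpleGraph.binomialRandom V p).real {G | IsDominating G A} =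
      (1 - (1 - (p : ℝ)) ^ A.card) ^ (Fintype.card V - A.card) := by
  rw [← prob_hit p A A (Finset.Subset.refl _), ← prob_blocks_real p A]
  congr 1
  ext G
  simp only [IsDominating, hitEv, Set.mem_setOf_eq]
  constructor
  · rintro h ⟨w, hw⟩
    obtain ⟨u, hu, hadj⟩ := h w (Finset.mem_compl.mp hw)
    exact ⟨⟨u, hu⟩, hu, hadj⟩
  · intro h v hv
    obtain ⟨a, ha, hadj⟩ := h ⟨v, Finset.mem_compl.mpr hv⟩
    exact ⟨a, ha, hadj⟩

/-- Upper bound for the probability that two given sets are both dominating. -/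
theorem prob_dom2 (p : I) (A B : Finset V) :
    (SimpleGraph.binomialRandom V p).real {G | IsDominating G A ∧ IsDominating G B} ≤
      (1 - (1 - (p : ℝ)) ^ A.card - (1 - (p : ℝ)) ^ B.card + (1 - (p : ℝ)) ^ (A ∪ B).card) ^
        (Fintype.card V - (A ∪ B).card) := by
  rw [← prob_hit2 p (A ∪ B) A B Finset.subset_union_left Finset.subset_union_right,
    ← prob_blocks_real p (A ∪ B)]
  refine measureReal_mono ?_ (measure_ne_top _ _)
  rintro G ⟨h1, h2⟩ ⟨w, hw⟩
  rw [Finset.mem_compl, Finset.mem_union, not_or] at hw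
  obtain ⟨u, hu, hadj⟩ := h1 w hw.1
  obtain ⟨u', hu', hadj'⟩ := h2 w hw.2
  exact ⟨⟨⟨u, Finset.mem_union_left _ hu⟩, hu, hadj⟩, ⟨⟨u', Finset.mem_union_right _ hu'⟩, hu', hadj'⟩⟩

end Pool.Agent.MBDom
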