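import Mathlib
import Pool.Agent.Lib.MP_f1bc00_pr.Prob

set_option autoImplicit false
set_option linter.unusedSectionVars false
set_option linter.deprecated false

open MeasureTheory Measure ProbabilityTheory unitInterval
open scoped ENNReal

namespace Pool.Agent.MBDom

variable {V : Type*} [Fintype V] [DecidableEq V]

instance instMSCGraph : MeasurableSingletonClass (SimpleGraph V) :=
  ⟨fun G => measurableSet_graph {G}⟩

/-- There are few small sets. -/
lemma card_small (b : ℕ) :
    (Finset.univ.filter (fun C : Finset V => C.card ≤ b)).card ≤ (Fintype.card V + 1) ^ b := by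
  induction b with
  | zero =>
    have : (Finset.univ.filter (fun C : Finset V => C.card ≤ 0)) ⊆ {∅} := by
      intro C hC
      simp only [Finset.mem_filter, Finset.mem_univ, true_and, Nat.le_zero,
        Finset.card_eq_zero] at hC
      simp [hC]
    simpa using Finset.card_le_card this
  | succ b ih =>
    have hsub : (Finset.univ.filter (fun C : Finset V => C.card ≤ b + 1)) ⊆
        ((Finset.univ : Finset (Option V)) ×ˢ
          (Finset.univ.filter (fun C : Finset V => C.card ≤ b))).image
          (fun x => match x.1 with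
            | none => x.2
            | some v => insert v x.2) := by
      intro C hC
      simp only [Finset.mem_filter, Finset.mem_univ, true_and] at hC
      rw [Finset.mem_image]
      by_cases h : C.card ≤ b
      · exact ⟨(none, C), by simp [h], rfl⟩
      · have hne : C.Nonempty := by
          rw [← Finset.card_pos]; omega
        obtain ⟨v, hv⟩ := hne
        refine ⟨(some v, C.erase v), ?_, ?_⟩
        · simp only [Finset.mem_product, Finset.mem_univ, Finset.mem_filter, true_and]
          rw [Finset.card_erase_of_mem hv]; omega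
        · simp [Finset.insert_erase hv]
    calc _ ≤ _ := Finset.card_le_card hsub
      _ ≤ _ := Finset.card_image_le
      _ = (Fintype.card V + 1) * (Finset.univ.filter (fun C : Finset V => C.card ≤ b)).card := by
          rw [Finset.card_product]; simp
      _ ≤ (Fintype.card V + 1) * (Fintype.card V + 1) ^ b := Nat.mul_le_mul_left _ ih
      _ = _ := by ring

/-- Few sets are close to a given one. -/
lemma card_close (A : Finset V) (r b : ℕ) (hA : A.card = r) :
    (Finset.univ.filter (fun B : Finset V => B.card = r ∧ r ≤ (A ∩ B).card + b)).card ≤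
      (Fintype.card V + 1) ^ (2 * b) := by
  have hinj : ∀ B ∈ (Finset.univ.filter
      (fun B : Finset V => B.card = r ∧ r ≤ (A ∩ B).card + b)),
      ((A \ B, B \ A) : Finset V × Finset V) ∈
        (Finset.univ.filter (fun C : Finset V => C.card ≤ b)) ×ˢ
        (Finset.univ.filter (fun C : Finset V => C.card ≤ b)) := by
    intro B hB
    simp only [Finset.mem_filter, Finset.mem_univ, true_and] at hB
    simp only [Finset.mem_product, Finset.mem_filter, Finset.mem_univ, true_and]
    have h1 := Finset.card_sdiff_add_card_inter A B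
    have h2 := Finset.card_sdiff_add_card_inter B A
    rw [Finset.inter_comm] at h2
    omega
  have hinj2 : Set.InjOn (fun B : Finset V => ((A \ B, B \ A) : Finset V × Finset V))
      (Finset.univ.filter
      (fun B : Finset V => B.card = r ∧ r ≤ (A ∩ B).card + b) : Finset (Finset V)) := by
    intro B _ B' _ h
    simp only [Prod.mk.injEq] at h
    obtain ⟨h1, h2⟩ := h
    ext x
    have h1x := Finset.ext_iff.mp h1 x
    have h2x := Finset.ext_iff.mp h2 x
    simp only [Finset.mem_sdiff] at h1x h2x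
    tauto
  have := Finset.card_le_card_of_injOn _ hinj hinj2
  refine this.trans ?_
  rw [Finset.card_product, two_mul, pow_add]
  exact Nat.mul_le_mul (card_small b) (card_small b)

/-- Few sets have a large intersection with a given one. -/
lemma card_large_inter (A : Finset V) (r m : ℕ) (hA : A.card = r) :
    (Finset.univ.filter (fun B : Finset V => B.card = r ∧ r ≤ (A ∩ B).card + m)).card ≤
      2 ^ r * (Fintype.card V + 1) ^ m := by
  have hinj : ∀ B ∈ (Finset.univ.filter
      (fun B : Finset V => B.card = r ∧ r ≤ (A ∩ B).card + m)),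
      ((A ∩ B, B \ A) : Finset V × Finset V) ∈
        A.powerset ×ˢ (Finset.univ.filter (fun C : Finset V => C.card ≤ m)) := by
    intro B hB
    simp only [Finset.mem_filter, Finset.mem_univ, true_and] at hB
    simp only [Finset.mem_product, Finset.mem_filter, Finset.mem_univ, true_and,
      Finset.mem_powerset]
    refine ⟨Finset.inter_subset_left, ?_⟩
    have h2 := Finset.card_sdiff_add_card_inter B A
    rw [Finset.inter_comm] at h2
    omega
  have hinj2 : Set.InjOn (fun B : Finset V => ((A ∩ B, B \ A) : Finset V × Finset V))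
      (Finset.univ.filter
      (fun B : Finset V => B.card = r ∧ r ≤ (A ∩ B).card + m) : Finset (Finset V)) := by
    intro B _ B' _ h
    simp only [Prod.mk.injEq] at h
    obtain ⟨h1, h2⟩ := h
    ext x
    have h1x := Finset.ext_iff.mp h1 x
    have h2x := Finset.ext_iff.mp h2 x
    simp only [Finset.mem_sdiff, Finset.mem_inter] at h1x h2x
    tauto
  have := Finset.card_le_card_of_injOn _ hinj hinj2
  refine this.trans ?_
  rw [Finset.card_product, Finset.card_powerset, hA]
  exact Nat.mul_le_mul_left _ (card_small m)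

/-- First moment bound for pairs of nearby dominating sets. -/
theorem bad_pairs_bound (p : I) (b r : ℕ) (hr1 : 1 ≤ r) (hr : r + b ≤ Fintype.card V) :
    (SimpleGraph.binomialRandom V p).real
      {G | ¬ ∀ A B : Finset V, IsDominating G A → IsDominating G B → A.card = r → B.card = r →
        r ≤ (A ∩ B).card + b → A = B} ≤
      (Fintype.card V : ℝ) ^ r * (Fintype.card V + 1 : ℝ) ^ (2 * b) *
        (1 - (1 + (p : ℝ)) * (1 - (p : ℝ)) ^ r) ^ (Fintype.card V - (r + b)) := by
  classical
  set q : ℝ := 1 - (p : ℝ) with hq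
  have hp0 : 0 ≤ (p : ℝ) := p.2.1
  have hp1 : (p : ℝ) ≤ 1 := p.2.2
  have hq0 : 0 ≤ q := by rw [hq]; linarith
  have hq1 : q ≤ 1 := by rw [hq]; linarith
  set S : Finset (Finset V × Finset V) := (Finset.univ.filter
    (fun x : Finset V × Finset V => x.1.card = r ∧ (x.2.card = r ∧ r ≤ (x.1 ∩ x.2).card + b) ∧
      x.1 ≠ x.2)) with hS
  have hScard : S.card ≤ Fintype.card V ^ r * (Fintype.card V + 1) ^ (2 * b) := by
    have h1 : S ⊆ (Finset.powersetCard r (Finset.univ : Finset V)).biUnion
        (fun A => (Finset.univ.filter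
          (fun B : Finset V => B.card = r ∧ r ≤ (A ∩ B).card + b)).image (fun B => (A, B))) := by
      rintro ⟨A, B⟩ hx
      simp only [hS, Finset.mem_filter, Finset.mem_univ, true_and] at hx
      simp only [Finset.mem_biUnion, Finset.mem_powersetCard_univ, Finset.mem_image,
        Finset.mem_filter, Finset.mem_univ, true_and]
      exact ⟨A, hx.1, B, hx.2.1, rfl⟩
    refine (Finset.card_le_card h1).trans ?_
    refine Finset.card_biUnion_le.trans ?_
    calc ∑ A ∈ Finset.powersetCard r (Finset.univ : Finset V), ((Finset.univ.filter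
          (fun B : Finset V => B.card = r ∧ r ≤ (A ∩ B).card + b)).image (fun B => (A, B))).card
        ≤ ∑ A ∈ Finset.powersetCard r (Finset.univ : Finset V), (Fintype.card V + 1) ^ (2 * b) := by
          apply Finset.sum_le_sum
          intro A hA
          rw [Finset.mem_powersetCard_univ] at hA
          exact Finset.card_image_le.trans (card_close A r b hA)
      _ = (Fintype.card V).choose r * (Fintype.card V + 1) ^ (2 * b) := by
          rw [Finset.sum_const, Finset.card_powersetCard, Finset.card_univ, smul_eq_mul]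
      _ ≤ _ := Nat.mul_le_mul_right _ (Nat.choose_le_pow _ _)
  have hsub : {G : SimpleGraph V | ¬ ∀ A B : Finset V, IsDominating G A → IsDominating G B →
      A.card = r → B.card = r → r ≤ (A ∩ B).card + b → A = B} ⊆
      ⋃ x ∈ S, {G : SimpleGraph V | IsDominating G x.1 ∧ IsDominating G x.2} := by
    intro G hG
    simp only [Set.mem_setOf_eq, not_forall] at hG
    obtain ⟨A, B, hA, hB, hAc, hBc, hi, hne⟩ := hG
    simp only [Set.mem_iUnion, Set.mem_setOf_eq, exists_prop]
    exact ⟨(A, B), by simp [hS, hAc, hBc, hi, hne], hA, hB⟩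
  refine (measureReal_mono hsub (measure_ne_top _ _)).trans ?_
  refine (measureReal_biUnion_finset_le _ _).trans ?_
  have hterm : ∀ x ∈ S, (SimpleGraph.binomialRandom V p).real
      {G : SimpleGraph V | IsDominating G x.1 ∧ IsDominating G x.2} ≤
      (1 - (1 + (p : ℝ)) * q ^ r) ^ (Fintype.card V - (r + b)) := by
    rintro ⟨A, B⟩ hx
    simp only [hS, Finset.mem_filter, Finset.mem_univ, true_and] at hx
    obtain ⟨hA, ⟨hB, hi⟩, hne⟩ := hx
    refine (prob_dom2 p A B).trans ?_
    rw [hA, hB]
    have hunion := Finset.card_union_add_card_inter A B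
    have hlt : (A ∩ B).card < r := by
      have hs : A ∩ B ⊂ A := by
        refine ⟨Finset.inter_subset_left, fun h => hne ?_⟩
        have hAB : A ⊆ B := fun x hx => (Finset.mem_inter.mp (h hx)).2
        exact Finset.eq_of_subset_of_card_le hAB (by omega)
      have := Finset.card_lt_card hs
      omega
    have h1 : r + 1 ≤ (A ∪ B).card := by omega
    have h2 : (A ∪ B).card ≤ r + b := by omega
    have h3 : q ^ (A ∪ B).card ≤ q ^ (r + 1) := pow_le_pow_of_le_one hq0 hq1 h1
    have h4 : q ^ (A ∪ B).card ≥ q ^ (2 * r) := pow_le_pow_of_le_one hq0 hq1 (by omega)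
    have hqr0 : 0 ≤ q ^ r := pow_nonneg hq0 r
    have hqr1 : q ^ r ≤ 1 := pow_le_one₀ hq0 hq1
    have h5 : 0 ≤ 1 - q ^ r - q ^ r + q ^ (A ∪ B).card := by
      have : q ^ (2 * r) = q ^ r * q ^ r := by rw [two_mul, pow_add]
      nlinarith [sq_nonneg (1 - q ^ r)]
    have h6 : 1 - q ^ r - q ^ r + q ^ (A ∪ B).card ≤ 1 - (1 + (p : ℝ)) * q ^ r := by
      have h7 : q ^ (r + 1) = q ^ r * (1 - (p : ℝ)) := by rw [pow_succ]
      nlinarith
    have h8 : 1 - q ^ r - q ^ r + q ^ (A ∪ B).card ≤ 1 := by
      have : q ^ (A ∪ B).card ≤ q ^ r := pow_le_pow_of_le_one hq0 hq1 (by omega)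
      linarith
    calc (1 - q ^ r - q ^ r + q ^ (A ∪ B).card) ^ (Fintype.card V - (A ∪ B).card)
        ≤ (1 - q ^ r - q ^ r + q ^ (A ∪ B).card) ^ (Fintype.card V - (r + b)) :=
          pow_le_pow_of_le_one h5 h8 (by omega)
      _ ≤ _ := pow_le_pow_left₀ h5 h6 _
  refine (Finset.sum_le_sum hterm).trans ?_
  rw [Finset.sum_const, nsmul_eq_mul]
  have hbase : 0 ≤ 1 - (1 + (p : ℝ)) * q ^ r := by
    have h9 : q ^ r ≤ q := pow_le_of_le_one hq0 hq1 (by omega)
    have : (1 + (p : ℝ)) * q ^ r ≤ (1 + (p : ℝ)) * q :=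
      mul_le_mul_of_nonneg_left h9 (by linarith)
    have h10 : (1 + (p : ℝ)) * q = 1 - (p : ℝ) ^ 2 := by rw [hq]; ring
    nlinarith [sq_nonneg (p : ℝ)]
  refine mul_le_mul_of_nonneg_right ?_ (pow_nonneg hbase _)
  exact_mod_cast hScard

/-- Cauchy-Schwarz on a finite probability space, in the form needed for the second moment
method. -/
lemma cauchy_schwarz_count {Ω : Type*} [Fintype Ω] (w : Ω → ℝ) (X : Ω → ℝ) (hw : ∀ x, 0 ≤ w x) :
    (∑ x, w x * X x) ^ 2 ≤ (∑ x, w x * X x ^ 2) * ∑ x, if X x = 0 then 0 else w x := by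
  apply Finset.sum_sq_le_sum_mul_sum_of_sq_le_mul
  · intro x _
    exact mul_nonneg (hw x) (sq_nonneg _)
  · intro x _
    split_ifs
    · exact le_refl _
    · exact hw x
  · intro x _
    split_ifs with h
    · simp [h]
    · apply le_of_eq; ring

lemma prob_eq_sum (p : I) (Q : SimpleGraph V → Prop) [DecidablePred Q]
    [Fintype (SimpleGraph V)] :
    (SimpleGraph.binomialRandom V p).real {G | Q G} =
      ∑ G : SimpleGraph V, (SimpleGraph.binomialRandom V p).real {G} * (if Q G then 1 else 0) := by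
  have h : ({G | Q G} : Set (SimpleGraph V)) =
      ((Finset.univ.filter Q : Finset (SimpleGraph V)) : Set (SimpleGraph V)) := by
    ext G; simp
  rw [h, ← sum_measureReal_singleton, Finset.sum_filter]
  refine Finset.sum_congr rfl fun G _ => ?_
  split_ifs <;> simp

/-- Real-number bound on the joint probability. -/
lemma pair_prob_bound (x y : ℝ) (hx0 : 0 ≤ x) (hx1 : x < 1) (hy : x ^ 2 ≤ y)
    (N r s : ℕ) (hs : s ≤ r) (hr : 2 * r ≤ N) :
    (1 - x - x + y) ^ (N - (2 * r - s)) * (1 - x) ^ (2 * r) ≤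
      ((1 - x) ^ (N - r)) ^ 2 * Real.exp (((1 - x) ^ 2)⁻¹ * N * y) := by
  have h1x : 0 < 1 - x := by linarith
  have hG : 0 < (1 - x) ^ 2 := by positivity
  have hy0 : 0 ≤ y := le_trans (sq_nonneg x) hy
  have h1 : 1 - x - x + y ≤ (1 - x) ^ 2 * Real.exp (((1 - x) ^ 2)⁻¹ * y) := by
    have h2 : ((1 - x) ^ 2)⁻¹ * y + 1 ≤ Real.exp (((1 - x) ^ 2)⁻¹ * y) := Real.add_one_le_exp _
    have h3 : (1 - x) ^ 2 * (((1 - x) ^ 2)⁻¹ * y + 1) ≤
        (1 - x) ^ 2 * Real.exp (((1 - x) ^ 2)⁻¹ * y) := mul_le_mul_of_nonneg_left h2 hG.le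
    have h4 : (1 - x) ^ 2 * (((1 - x) ^ 2)⁻¹ * y + 1) = y + (1 - x) ^ 2 := by
      field_simp
    rw [h4] at h3
    nlinarith [sq_nonneg x]
  have h0 : 0 ≤ 1 - x - x + y := by nlinarith [sq_nonneg (1 - x)]
  set k := N - (2 * r - s) with hk
  have hkN : k ≤ N := by omega
  have h5 : (1 - x - x + y) ^ k ≤ ((1 - x) ^ 2) ^ k * Real.exp (((1 - x) ^ 2)⁻¹ * N * y) := by
    calc (1 - x - x + y) ^ k ≤ ((1 - x) ^ 2 * Real.exp (((1 - x) ^ 2)⁻¹ * y)) ^ k :=
          pow_le_pow_left₀ h0 h1 k
      _ = ((1 - x) ^ 2) ^ k * Real.exp (k * (((1 - x) ^ 2)⁻¹ * y)) := by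
          rw [mul_pow, ← Real.exp_nat_mul]
      _ ≤ ((1 - x) ^ 2) ^ k * Real.exp (((1 - x) ^ 2)⁻¹ * N * y) := by
          apply mul_le_mul_of_nonneg_left _ (by positivity)
          apply Real.exp_le_exp.mpr
          have : (k : ℝ) ≤ N := by exact_mod_cast hkN
          have h6 : 0 ≤ ((1 - x) ^ 2)⁻¹ * y := by positivity
          nlinarith
  have h6 : ((1 - x) ^ 2) ^ k * (1 - x) ^ (2 * r) ≤ ((1 - x) ^ (N - r)) ^ 2 := by
    rw [← pow_mul, ← pow_add, ← pow_mul]
    apply pow_le_pow_of_le_one h1x.le (by linarith)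
    omega
  calc (1 - x - x + y) ^ k * (1 - x) ^ (2 * r)
      ≤ (((1 - x) ^ 2) ^ k * Real.exp (((1 - x) ^ 2)⁻¹ * N * y)) * (1 - x) ^ (2 * r) :=
        mul_le_mul_of_nonneg_right h5 (by positivity)
    _ = (((1 - x) ^ 2) ^ k * (1 - x) ^ (2 * r)) * Real.exp (((1 - x) ^ 2)⁻¹ * N * y) := by ring
    _ ≤ _ := mul_le_mul_of_nonneg_right h6 (Real.exp_pos _).le

/-- Second moment inequality. -/
theorem second_moment (p : I) (hp : 0 < (p : ℝ)) (hp1 : (p : ℝ) < 1) (r m : ℕ) (hr1 : 1 ≤ r)
    (hr : 2 * r ≤ Fintype.card V) :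
    ((Fintype.card V).choose r : ℝ) * (1 - (1 - (p : ℝ)) ^ r) ^ (2 * r) ≤
    (SimpleGraph.binomialRandom V p).real {G | ∃ D : Finset V, IsDominating G D ∧ D.card = r} *
      (((Fintype.card V).choose r : ℝ) *
        Real.exp (((1 - (1 - (p : ℝ)) ^ r) ^ 2)⁻¹ * Fintype.card V * (1 - (p : ℝ)) ^ (r + m)) +
       2 ^ r * (Fintype.card V + 1 : ℝ) ^ m *
        Real.exp (((1 - (1 - (p : ℝ)) ^ r) ^ 2)⁻¹ * Fintype.card V * (1 - (p : ℝ)) ^ r)) := by
  classical
  let _ : Fintype (SimpleGraph V) := Fintype.ofFinite _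
  set q : ℝ := 1 - (p : ℝ) with hq
  have hq0 : 0 < q := by rw [hq]; linarith
  have hq1 : q < 1 := by rw [hq]; linarith
  set N := Fintype.card V with hN
  set μ := SimpleGraph.binomialRandom V p with hμ
  have hx0 : 0 < q ^ r := pow_pos hq0 r
  have hx1 : q ^ r < 1 := pow_lt_one₀ hq0.le hq1 (by omega)
  set w : SimpleGraph V → ℝ := fun G => μ.real {G} with hw
  set T := Finset.powersetCard r (Finset.univ : Finset V) with hT
  set X : SimpleGraph V → ℝ := fun G => ∑ A ∈ T, if IsDominating G A then (1 : ℝ) else 0 with hX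
  have hcs := cauchy_schwarz_count w X (fun G => measureReal_nonneg)
  set P1 : ℝ := (1 - q ^ r) ^ (N - r) with hP1
  have hP1pos : 0 < P1 := pow_pos (by linarith) _
  -- first moment
  have hE1 : ∑ G, w G * X G = (N.choose r : ℝ) * P1 := by
    have h1 : ∀ G, w G * X G = ∑ A ∈ T, w G * (if IsDominating G A then 1 else 0) := by
      intro G; rw [hX]; simp only [Finset.mul_sum]
    simp_rw [h1]
    rw [Finset.sum_comm]
    have h2 : ∀ A ∈ T, ∑ G, w G * (if IsDominating G A then (1 : ℝ) else 0) = P1 := by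
      intro A hA
      rw [hT, Finset.mem_powersetCard_univ] at hA
      rw [← prob_eq_sum p (fun G => IsDominating G A), prob_dom, hA]
    rw [Finset.sum_congr rfl h2, Finset.sum_const, hT, Finset.card_powersetCard,
      Finset.card_univ, nsmul_eq_mul]
  -- event
  have hEv : ∑ G, (if X G = 0 then 0 else w G) =
      μ.real {G | ∃ D : Finset V, IsDominating G D ∧ D.card = r} := by
    rw [hμ, prob_eq_sum p]
    refine Finset.sum_congr rfl fun G _ => ?_
    have hiff : X G = 0 ↔ ¬ ∃ D : Finset V, IsDominating G D ∧ D.card = r := by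
      rw [hX]
      simp only []
      rw [Finset.sum_eq_zero_iff_of_nonneg (fun A _ => by split_ifs <;> norm_num)]
      constructor
      · rintro h ⟨D, hD, hDc⟩
        have := h D (by rw [hT, Finset.mem_powersetCard_univ]; exact hDc)
        rw [if_pos hD] at this
        norm_num at this
      · intro h A hA
        rw [hT, Finset.mem_powersetCard_univ] at hA
        rw [if_neg]
        intro hdom
        exact h ⟨A, hdom, hA⟩
    by_cases hXG : X G = 0
    · rw [if_pos hXG, if_neg (hiff.mp hXG)]; simp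
    · rw [if_neg hXG, if_pos (by by_contra hh; exact hXG (hiff.mpr hh))]; simp [hw, hμ]
  -- second moment
  set e1 : ℝ := Real.exp (((1 - q ^ r) ^ 2)⁻¹ * N * q ^ (r + m)) with he1
  set e2 : ℝ := Real.exp (((1 - q ^ r) ^ 2)⁻¹ * N * q ^ r) with he2
  have hE2 : (∑ G, w G * X G ^ 2) * (1 - q ^ r) ^ (2 * r) ≤
      (N.choose r : ℝ) * (P1 ^ 2 * ((N.choose r : ℝ) * e1 + 2 ^ r * (N + 1 : ℝ) ^ m * e2)) := by
    have h1 : ∀ G, w G * X G ^ 2 = ∑ A ∈ T, ∑ B ∈ T, w G *
        (if IsDominating G A ∧ IsDominating G B then (1 : ℝ) else 0) := by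
      intro G
      rw [hX, sq]
      simp only []
      rw [Finset.sum_mul_sum, Finset.mul_sum]
      refine Finset.sum_congr rfl fun A _ => ?_
      rw [Finset.mul_sum]
      refine Finset.sum_congr rfl fun B _ => ?_
      by_cases hA : IsDominating G A <;> by_cases hB : IsDominating G B <;> simp [hA, hB]
    have h2 : ∑ G, w G * X G ^ 2 = ∑ A ∈ T, ∑ B ∈ T,
        μ.real {G | IsDominating G A ∧ IsDominating G B} := by
      simp_rw [h1]
      rw [Finset.sum_comm]
      refine Finset.sum_congr rfl fun A _ => ?_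
      rw [Finset.sum_comm]
      refine Finset.sum_congr rfl fun B _ => ?_
      rw [← prob_eq_sum p (fun G => IsDominating G A ∧ IsDominating G B)]
    rw [h2, Finset.sum_mul]
    have h3 : ∀ A ∈ T, (∑ B ∈ T, μ.real {G | IsDominating G A ∧ IsDominating G B}) *
        (1 - q ^ r) ^ (2 * r) ≤
        P1 ^ 2 * ((N.choose r : ℝ) * e1 + 2 ^ r * (N + 1 : ℝ) ^ m * e2) := by
      intro A hA
      rw [hT, Finset.mem_powersetCard_univ] at hA
      rw [Finset.sum_mul]
      have h4 : ∀ B ∈ T, μ.real {G | IsDominating G A ∧ IsDominating G B} *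
          (1 - q ^ r) ^ (2 * r) ≤ P1 ^ 2 * e1 +
            (if r ≤ (A ∩ B).card + m then P1 ^ 2 * e2 else 0) := by
        intro B hB
        rw [hT, Finset.mem_powersetCard_univ] at hB
        have hprob := prob_dom2 p A B
        rw [hA, hB] at hprob
        have hunion := Finset.card_union_add_card_inter A B
        have hile : (A ∩ B).card ≤ r := by
          rw [← hA]; exact Finset.card_le_card Finset.inter_subset_left
        have hucard : (A ∪ B).card = 2 * r - (A ∩ B).card := by omega
        have hy : (q ^ r) ^ 2 ≤ q ^ (A ∪ B).card := by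
          rw [← pow_mul]
          exact pow_le_pow_of_le_one hq0.le hq1.le (by omega)
        have hpb := pair_prob_bound (q ^ r) (q ^ (A ∪ B).card) hx0.le hx1 hy N r (A ∩ B).card
          hile hr
        rw [← hucard] at hpb
        have h5 : μ.real {G | IsDominating G A ∧ IsDominating G B} * (1 - q ^ r) ^ (2 * r) ≤
            P1 ^ 2 * Real.exp (((1 - q ^ r) ^ 2)⁻¹ * N * q ^ (A ∪ B).card) := by
          refine le_trans ?_ hpb
          exact mul_le_mul_of_nonneg_right hprob (pow_nonneg (by linarith) _)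
        refine h5.trans ?_
        have hG0 : 0 ≤ ((1 - q ^ r) ^ 2)⁻¹ * (N : ℝ) := by positivity
        split_ifs with hcase
        · have h6 : Real.exp (((1 - q ^ r) ^ 2)⁻¹ * N * q ^ (A ∪ B).card) ≤ e2 := by
            apply Real.exp_le_exp.mpr
            apply mul_le_mul_of_nonneg_left _ hG0
            exact pow_le_pow_of_le_one hq0.le hq1.le (by omega)
          have h7 : 0 ≤ P1 ^ 2 * e1 := by positivity
          have h8 := mul_le_mul_of_nonneg_left h6 (sq_nonneg P1)
          linarith
        · have h6 : Real.exp (((1 - q ^ r) ^ 2)⁻¹ * N * q ^ (A ∪ B).card) ≤ e1 := by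
            apply Real.exp_le_exp.mpr
            apply mul_le_mul_of_nonneg_left _ hG0
            exact pow_le_pow_of_le_one hq0.le hq1.le (by omega)
          have h8 := mul_le_mul_of_nonneg_left h6 (sq_nonneg P1)
          linarith
      refine (Finset.sum_le_sum h4).trans ?_
      rw [Finset.sum_add_distrib, Finset.sum_const, ← Finset.sum_filter, Finset.sum_const,
        hT, Finset.card_powersetCard, Finset.card_univ, nsmul_eq_mul, nsmul_eq_mul, ← hN]
      have hcount : ((Finset.powersetCard r (Finset.univ : Finset V)).filter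
          (fun B => r ≤ (A ∩ B).card + m)).card ≤ 2 ^ r * (N + 1) ^ m := by
        refine le_trans (Finset.card_le_card ?_) (card_large_inter A r m hA)
        intro B hB
        simp only [Finset.mem_filter, Finset.mem_powersetCard_univ] at hB
        simp [hB]
      have hcount' : (((Finset.powersetCard r (Finset.univ : Finset V)).filter
          (fun B => r ≤ (A ∩ B).card + m)).card : ℝ) ≤ 2 ^ r * (N + 1 : ℝ) ^ m := by
        exact_mod_cast hcount
      have h9 : 0 ≤ P1 ^ 2 * e2 := by positivity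
      have h10 := mul_le_mul_of_nonneg_right hcount' h9
      linarith
    refine (Finset.sum_le_sum h3).trans ?_
    rw [Finset.sum_const, hT, Finset.card_powersetCard, Finset.card_univ, nsmul_eq_mul]
  rw [hE1, hEv] at hcs
  have hC : 0 < (N.choose r : ℝ) := by
    exact_mod_cast Nat.choose_pos (by omega)
  set Pr := μ.real {G | ∃ D : Finset V, IsDominating G D ∧ D.card = r} with hPr
  have hPr0 : 0 ≤ Pr := measureReal_nonneg
  have hz : 0 < (1 - q ^ r) ^ (2 * r) := pow_pos (by linarith) _
  have hfin : ((N.choose r : ℝ) * P1 ^ 2) * ((N.choose r : ℝ) * (1 - q ^ r) ^ (2 * r)) ≤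
      ((N.choose r : ℝ) * P1 ^ 2) * (Pr * ((N.choose r : ℝ) * e1 + 2 ^ r * (N + 1 : ℝ) ^ m * e2)) := by
    calc ((N.choose r : ℝ) * P1 ^ 2) * ((N.choose r : ℝ) * (1 - q ^ r) ^ (2 * r))
        = ((N.choose r : ℝ) * P1) ^ 2 * (1 - q ^ r) ^ (2 * r) := by ring
      _ ≤ ((∑ G, w G * X G ^ 2) * Pr) * (1 - q ^ r) ^ (2 * r) :=
          mul_le_mul_of_nonneg_right hcs hz.le
      _ = ((∑ G, w G * X G ^ 2) * (1 - q ^ r) ^ (2 * r)) * Pr := by ring
      _ ≤ ((N.choose r : ℝ) * (P1 ^ 2 * ((N.choose r : ℝ) * e1 + 2 ^ r * (N + 1 : ℝ) ^ m * e2))) * Pr :=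
          mul_le_mul_of_nonneg_right hE2 hPr0
      _ = _ := by ring
  exact le_of_mul_le_mul_left hfin (by positivity)

end Pool.Agent.MBDom
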