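import Mathlib
import Pool.Agent.Lib.MP_f1bc00_pr.Moments

set_option autoImplicit false
set_option linter.unusedSectionVars false
set_option linter.deprecated false

open Filter Topology

namespace Pool.Agent.MBDom

section asymp

variable {q θ : ℝ}

lemma tendsto_log_div_nat : Tendsto (fun r : ℕ => Real.log r / r) atTop (𝓝 0) := by
  have h := Real.tendsto_pow_log_div_mul_add_atTop 1 0 1 one_ne_zero
  have h2 := h.comp tendsto_natCast_atTop_atTop
  refine h2.congr fun r => ?_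
  simp

lemma tendsto_sq_mul_pow (hq0 : 0 < q) (hq1 : q < 1) :
    Tendsto (fun r : ℕ => (r : ℝ) ^ 2 * q ^ r) atTop (𝓝 0) :=
  tendsto_pow_const_mul_const_pow_of_abs_lt_one 2 (by rw [abs_of_pos hq0]; exact hq1)

lemma tendsto_mul_pow (hq0 : 0 < q) (hq1 : q < 1) :
    Tendsto (fun r : ℕ => (r : ℝ) * q ^ r) atTop (𝓝 0) := by
  have := tendsto_pow_const_mul_const_pow_of_abs_lt_one 1 (r := q)
    (by rw [abs_of_pos hq0]; exact hq1)
  simpa using this

lemma tendsto_qpow (hq0 : 0 < q) (hq1 : q < 1) :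
    Tendsto (fun r : ℕ => q ^ r) atTop (𝓝 0) :=
  tendsto_pow_atTop_nhds_zero_of_lt_one hq0.le hq1

/-- if `M(r) q^r / r² → c > 0` then `log M(r) / r → - log q`. -/
lemma tendsto_log_div (hq0 : 0 < q) {c : ℝ} (hc : 0 < c) (M : ℕ → ℝ)
    (hM : Tendsto (fun r : ℕ => M r * q ^ r / (r : ℝ) ^ 2) atTop (𝓝 c)) :
    Tendsto (fun r : ℕ => Real.log (M r) / r) atTop (𝓝 (-Real.log q)) := by
  have h1 : Tendsto (fun r : ℕ => Real.log (M r * q ^ r / (r : ℝ) ^ 2)) atTop
      (𝓝 (Real.log c)) := (Real.continuousAt_log hc.ne').tendsto.comp hM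
  have h2 : Tendsto (fun r : ℕ => Real.log (M r * q ^ r / (r : ℝ) ^ 2) / r) atTop (𝓝 0) :=
    h1.div_atTop tendsto_natCast_atTop_atTop
  have h3 : Tendsto (fun r : ℕ => Real.log (M r * q ^ r / (r : ℝ) ^ 2) / r +
      2 * (Real.log r / r) + (-Real.log q)) atTop (𝓝 (0 + 2 * 0 + (-Real.log q))) :=
    (h2.add (tendsto_log_div_nat.const_mul 2)).add_const _
  simp only [mul_zero, add_zero, zero_add] at h3
  refine h3.congr' ?_
  have hpos : ∀ᶠ r : ℕ in atTop, 0 < M r * q ^ r / (r : ℝ) ^ 2 := hM.eventually_const_lt hc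
  filter_upwards [hpos, eventually_gt_atTop 0] with r hr hr0
  have hrpos : (0 : ℝ) < r := by exact_mod_cast hr0
  have hqr : 0 < q ^ r := pow_pos hq0 r
  have hMr : 0 < M r := by
    by_contra hneg
    push Not at hneg
    have : M r * q ^ r / (r : ℝ) ^ 2 ≤ 0 :=
      div_nonpos_of_nonpos_of_nonneg (mul_nonpos_of_nonpos_of_nonneg hneg hqr.le) (by positivity)
    linarith
  rw [Real.log_div (by positivity) (by positivity), Real.log_mul hMr.ne' hqr.ne', Real.log_pow,
    Real.log_pow]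
  field_simp
  push_cast
  ring

/-- The number of vertices. -/
noncomputable def NN (q θ : ℝ) (r : ℕ) : ℕ := ⌈θ * (-Real.log q) * (r : ℝ) ^ 2 * (q⁻¹) ^ r⌉₊

lemma lam_pos (hq0 : 0 < q) (hq1 : q < 1) : 0 < -Real.log q := by
  have := Real.log_neg hq0 hq1
  linarith

lemma NN_ratio (hq0 : 0 < q) (hq1 : q < 1) (hθ0 : 0 < θ) :
    Tendsto (fun r : ℕ => (NN q θ r : ℝ) * q ^ r / (r : ℝ) ^ 2) atTop
      (𝓝 (θ * (-Real.log q))) := by
  have hl := lam_pos hq0 hq1
  have hup : Tendsto (fun r : ℕ => θ * (-Real.log q) + q ^ r) atTop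
      (𝓝 (θ * (-Real.log q) + 0)) := (tendsto_qpow hq0 hq1).const_add _
  rw [add_zero] at hup
  refine tendsto_of_tendsto_of_tendsto_of_le_of_le' tendsto_const_nhds hup ?_ ?_
  · filter_upwards [eventually_gt_atTop 0] with r hr
    have hrpos : (0 : ℝ) < r := by exact_mod_cast hr
    have hqr : 0 < q ^ r := pow_pos hq0 r
    rw [le_div_iff₀ (by positivity)]
    have h1 : θ * (-Real.log q) * (r : ℝ) ^ 2 * (q⁻¹) ^ r ≤ NN q θ r := Nat.le_ceil _
    have h2 := mul_le_mul_of_nonneg_right h1 hqr.le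
    have h3 : θ * (-Real.log q) * (r : ℝ) ^ 2 * (q⁻¹) ^ r * q ^ r =
        θ * (-Real.log q) * (r : ℝ) ^ 2 := by
      rw [mul_assoc _ ((q⁻¹) ^ r), ← mul_pow, inv_mul_cancel₀ hq0.ne', one_pow, mul_one]
    rw [h3] at h2
    exact h2
  · filter_upwards [eventually_gt_atTop 0] with r hr
    have hrpos : (0 : ℝ) < r := by exact_mod_cast hr
    have hr1 : (1 : ℝ) ≤ r := by exact_mod_cast hr
    have hqr : 0 < q ^ r := pow_pos hq0 r
    rw [div_le_iff₀ (by positivity)]
    have h0 : 0 ≤ θ * (-Real.log q) * (r : ℝ) ^ 2 * (q⁻¹) ^ r := by positivity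
    have h1 : (NN q θ r : ℝ) ≤ θ * (-Real.log q) * (r : ℝ) ^ 2 * (q⁻¹) ^ r + 1 :=
      (Nat.ceil_lt_add_one h0).le
    have h2 := mul_le_mul_of_nonneg_right h1 hqr.le
    have h3 : θ * (-Real.log q) * (r : ℝ) ^ 2 * (q⁻¹) ^ r * q ^ r =
        θ * (-Real.log q) * (r : ℝ) ^ 2 := by
      rw [mul_assoc _ ((q⁻¹) ^ r), ← mul_pow, inv_mul_cancel₀ hq0.ne', one_pow, mul_one]
    rw [add_mul, h3, one_mul] at h2
    have h4 : q ^ r ≤ q ^ r * (r : ℝ) ^ 2 := by
      have : (1 : ℝ) ≤ (r : ℝ) ^ 2 := one_le_pow₀ hr1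
      nlinarith
    nlinarith

lemma NN_ratio' (hq0 : 0 < q) (hq1 : q < 1) (hθ0 : 0 < θ) :
    Tendsto (fun r : ℕ => ((NN q θ r : ℝ) + 1) * q ^ r / (r : ℝ) ^ 2) atTop
      (𝓝 (θ * (-Real.log q))) := by
  have h1 := NN_ratio hq0 hq1 hθ0
  have h2 : Tendsto (fun r : ℕ => q ^ r / (r : ℝ) ^ 2) atTop (𝓝 0) := by
    have h3 : Tendsto (fun r : ℕ => (r : ℝ) ^ 2) atTop atTop :=
      (tendsto_pow_atTop two_ne_zero).comp tendsto_natCast_atTop_atTop
    exact (tendsto_qpow hq0 hq1).div_atTop h3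
  have h4 := h1.add h2
  rw [add_zero] at h4
  refine h4.congr fun r => ?_
  ring

lemma NN_tendsto (hq0 : 0 < q) (hq1 : q < 1) (hθ0 : 0 < θ) :
    Tendsto (fun r : ℕ => (NN q θ r : ℝ)) atTop atTop := by
  have hl := lam_pos hq0 hq1
  have h1 : Tendsto (fun r : ℕ => θ * (-Real.log q) * (r : ℝ) ^ 2) atTop atTop :=
    Tendsto.const_mul_atTop (by positivity)
      ((tendsto_pow_atTop two_ne_zero).comp tendsto_natCast_atTop_atTop)
  refine tendsto_atTop_mono (fun r => ?_) h1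
  refine le_trans ?_ (Nat.le_ceil _)
  have hone : (1 : ℝ) ≤ (q⁻¹) ^ r := one_le_pow₀ (by rw [one_le_inv₀ hq0]; exact hq1.le)
  have h0 : 0 ≤ θ * (-Real.log q) * (r : ℝ) ^ 2 := by positivity
  nlinarith

lemma eventually_le_NN (hq0 : 0 < q) (hq1 : q < 1) (hθ0 : 0 < θ) (a c : ℕ) :
    ∀ᶠ r : ℕ in atTop, a * r + c ≤ NN q θ r := by
  have hl := lam_pos hq0 hq1
  have h1 : Tendsto (fun r : ℕ => (a * r + c : ℝ) / (θ * (-Real.log q) * (r : ℝ) ^ 2)) atTop
      (𝓝 0) := by
    have h2 : Tendsto (fun r : ℕ => (1 : ℝ) / r) atTop (𝓝 0) := tendsto_one_div_atTop_nhds_zero_nat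
    have h3 : Tendsto (fun r : ℕ => (θ * (-Real.log q))⁻¹ * (a * ((1 : ℝ) / r) +
        c * ((1 : ℝ) / r * ((1 : ℝ) / r)))) atTop
        (𝓝 ((θ * (-Real.log q))⁻¹ * (a * 0 + c * (0 * 0)))) :=
      ((h2.const_mul _).add ((h2.mul h2).const_mul _)).const_mul _
    simp only [mul_zero, add_zero] at h3
    refine h3.congr' ?_
    filter_upwards [eventually_gt_atTop 0] with r hr
    have hrpos : (0 : ℝ) < r := by exact_mod_cast hr
    field_simp
  filter_upwards [h1.eventually_lt_const (zero_lt_one), eventually_gt_atTop 0] with r hr hr0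
  have hrpos : (0 : ℝ) < r := by exact_mod_cast hr0
  rw [div_lt_one (by positivity)] at hr
  have h4 : θ * (-Real.log q) * (r : ℝ) ^ 2 ≤ NN q θ r := by
    refine le_trans ?_ (Nat.le_ceil _)
    have hone : (1 : ℝ) ≤ (q⁻¹) ^ r := one_le_pow₀ (by rw [one_le_inv₀ hq0]; exact hq1.le)
    have h0 : 0 ≤ θ * (-Real.log q) * (r : ℝ) ^ 2 := by positivity
    nlinarith
  have h5 : ((a * r + c : ℕ) : ℝ) ≤ NN q θ r := by push_cast; linarith
  exact_mod_cast h5

/-- a sequence whose quotient by `r²` tends to a negative limit has exponential tending to 0 -/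
lemma exp_tendsto_zero {E : ℕ → ℝ} {c : ℝ} (hc : c < 0)
    (hE : Tendsto (fun r : ℕ => E r / (r : ℝ) ^ 2) atTop (𝓝 c)) :
    Tendsto (fun r : ℕ => Real.exp (E r)) atTop (𝓝 0) := by
  apply Real.tendsto_exp_atBot.comp
  have h1 : Tendsto (fun r : ℕ => (r : ℝ) ^ 2) atTop atTop :=
    (tendsto_pow_atTop two_ne_zero).comp tendsto_natCast_atTop_atTop
  have h2 := hE.neg_mul_atTop hc h1
  refine h2.congr' ?_
  filter_upwards [eventually_gt_atTop 0] with r hr
  have hrpos : (0 : ℝ) < r := by exact_mod_cast hr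
  field_simp

/-- The first moment bound for nearby pairs tends to zero. -/
lemma first_moment_tendsto (p : ℝ) (hp0 : 0 < p) (hp1 : p < 1) (hθ0 : 0 < θ)
    (hθ : 1 < (1 + p) * θ) (b : ℕ) :
    Tendsto (fun r : ℕ => ((NN (1 - p) θ r : ℝ)) ^ r * ((NN (1 - p) θ r : ℝ) + 1) ^ (2 * b) *
        (1 - (1 + p) * (1 - p) ^ r) ^ (NN (1 - p) θ r - (r + b))) atTop (𝓝 0) := by
  set q := 1 - p with hq
  have hq0 : 0 < q := by linarith
  have hq1 : q < 1 := by linarith
  have hl := lam_pos hq0 hq1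
  set lam := -Real.log q with hlam
  set N : ℕ → ℕ := NN q θ with hN
  set E : ℕ → ℝ := fun r => r * Real.log (N r) + 2 * b * Real.log ((N r : ℝ) + 1) -
    (1 + p) * q ^ r * (N r) + (1 + p) * q ^ r * (r + b) with hE
  have h1 : Tendsto (fun r : ℕ => Real.log (N r) / r) atTop (𝓝 lam) :=
    tendsto_log_div hq0 (c := θ * lam) (by positivity) (fun r => (N r : ℝ))
      (NN_ratio hq0 hq1 hθ0)
  have h2 : Tendsto (fun r : ℕ => Real.log ((N r : ℝ) + 1) / r) atTop (𝓝 lam) :=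
    tendsto_log_div hq0 (c := θ * lam) (by positivity) (fun r => (N r : ℝ) + 1)
      (NN_ratio' hq0 hq1 hθ0)
  have h3 : Tendsto (fun r : ℕ => (N r : ℝ) * q ^ r / (r : ℝ) ^ 2) atTop (𝓝 (θ * lam)) :=
    NN_ratio hq0 hq1 hθ0
  have h4 : Tendsto (fun r : ℕ => (1 : ℝ) / r) atTop (𝓝 0) := tendsto_one_div_atTop_nhds_zero_nat
  have h5 := tendsto_qpow hq0 hq1
  have hElim : Tendsto (fun r : ℕ => E r / (r : ℝ) ^ 2) atTop
      (𝓝 (lam + 2 * b * (lam * 0) - (1 + p) * (θ * lam) +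
        (1 + p) * (0 * 0 + b * (0 * 0 * 0)))) := by
    refine (((h1.add ((h2.mul h4).const_mul (2 * (b : ℝ)))).sub (h3.const_mul (1 + p))).add
      (((h5.mul h4).add (((h5.mul h4).mul h4).const_mul (b : ℝ))).const_mul (1 + p))).congr' ?_
    filter_upwards [eventually_gt_atTop 0] with r hr
    have hrpos : (0 : ℝ) < r := by exact_mod_cast hr
    simp only [hE]
    field_simp
  have hneg : lam + 2 * b * (lam * 0) - (1 + p) * (θ * lam) +
        (1 + p) * (0 * 0 + b * (0 * 0 * 0)) < 0 := by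
    have : lam + 2 * b * (lam * 0) - (1 + p) * (θ * lam) +
        (1 + p) * (0 * 0 + b * (0 * 0 * 0)) = lam * (1 - (1 + p) * θ) := by ring
    rw [this]
    exact mul_neg_of_pos_of_neg hl (by linarith)
  have hexp := exp_tendsto_zero hneg hElim
  have hx := (tendsto_qpow hq0 hq1).const_mul (1 + p)
  rw [mul_zero] at hx
  refine squeeze_zero' ?_ ?_ hexp
  · filter_upwards [hx.eventually_lt_const zero_lt_one] with r hr
    have : 0 ≤ 1 - (1 + p) * q ^ r := by linarith
    positivity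
  · filter_upwards [hx.eventually_lt_const zero_lt_one,
      eventually_le_NN hq0 hq1 hθ0 1 (b + 1)] with r hr hrN0
    have hrN : 1 * r + (b + 1) ≤ N r := hrN0
    have hbase : 0 ≤ 1 - (1 + p) * q ^ r := by linarith
    have hNpos : (0 : ℝ) < N r := by
      have : 0 < N r := by omega
      exact_mod_cast this
    have e1 : (N r : ℝ) ^ r = Real.exp (r * Real.log (N r)) := by
      rw [mul_comm, ← Real.rpow_def_of_pos hNpos, Real.rpow_natCast]
    have e2 : ((N r : ℝ) + 1) ^ (2 * b) = Real.exp (2 * b * Real.log ((N r : ℝ) + 1)) := by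
      rw [mul_comm (2 * (b : ℝ)), ← Real.rpow_def_of_pos (by linarith)]
      rw [← Real.rpow_natCast]; push_cast; rfl
    have e3 : (1 - (1 + p) * q ^ r) ^ (N r - (r + b)) ≤
        Real.exp (-((1 + p) * q ^ r * (N r)) + (1 + p) * q ^ r * (r + b)) := by
      have h6 : 1 - (1 + p) * q ^ r ≤ Real.exp (-((1 + p) * q ^ r)) := by
        have := Real.add_one_le_exp (-((1 + p) * q ^ r))
        linarith
      refine (pow_le_pow_left₀ hbase h6 _).trans ?_
      rw [← Real.exp_nat_mul]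
      apply Real.exp_le_exp.mpr
      rw [Nat.cast_sub (by omega)]
      push_cast
      apply le_of_eq
      ring
    calc (N r : ℝ) ^ r * ((N r : ℝ) + 1) ^ (2 * b) *
        (1 - (1 + p) * q ^ r) ^ (N r - (r + b))
        ≤ (N r : ℝ) ^ r * ((N r : ℝ) + 1) ^ (2 * b) *
          Real.exp (-((1 + p) * q ^ r * (N r)) + (1 + p) * q ^ r * (r + b)) :=
          mul_le_mul_of_nonneg_left e3 (by positivity)
      _ = Real.exp (E r) := by
          rw [e1, e2, ← Real.exp_add, ← Real.exp_add]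
          congr 1
          simp only [hE]
          ring

lemma choose_lower (N r : ℕ) (hr : 2 * r ≤ N) (hr1 : 1 ≤ r) :
    Real.exp (r * Real.log N - r * Real.log 2 - r * Real.log r) ≤ (N.choose r : ℝ) := by
  have hrpos : (0 : ℝ) < r := by exact_mod_cast hr1
  have hNpos : (0 : ℝ) < N := by
    have : 0 < N := by omega
    exact_mod_cast this
  have h1 : ((N + 1 - r : ℕ) ^ r : ℝ) / (r.factorial : ℝ) ≤ (N.choose r : ℝ) :=
    Nat.pow_le_choose r N
  refine le_trans ?_ h1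
  have h2 : Real.exp (r * Real.log N - r * Real.log 2 - r * Real.log r) =
      ((N : ℝ) / 2 / r) ^ r := by
    rw [← Real.rpow_natCast, Real.rpow_def_of_pos (by positivity), Real.log_div (by positivity)
      (by positivity), Real.log_div (by positivity) (by positivity)]
    congr 1
    ring
  rw [h2, div_pow]
  have h3 : (r.factorial : ℝ) ≤ (r : ℝ) ^ r := by exact_mod_cast Nat.factorial_le_pow r
  have h4 : (0 : ℝ) < r.factorial := by exact_mod_cast Nat.factorial_pos r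
  have h5 : ((N : ℝ) / 2) ^ r ≤ ((N + 1 - r : ℕ) : ℝ) ^ r := by
    apply pow_le_pow_left₀ (by positivity)
    rw [Nat.cast_sub (by omega)]
    push_cast
    have : (2 * r : ℝ) ≤ N := by exact_mod_cast hr
    linarith
  exact div_le_div₀ (by positivity) h5 h4 h3

/-- The lower bound from the second moment method tends to one. -/
lemma second_moment_tendsto (p : ℝ) (hp0 : 0 < p) (hp1 : p < 1) (hθ0 : 0 < θ) (hθ1 : θ < 1)
    (P : ℕ → ℝ) (hP1 : ∀ r, P r ≤ 1)
    (hP : ∀ r : ℕ, 1 ≤ r → 2 * r ≤ NN (1 - p) θ r → ∀ m : ℕ,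
      ((NN (1 - p) θ r).choose r : ℝ) * (1 - (1 - p) ^ r) ^ (2 * r) ≤
      P r * (((NN (1 - p) θ r).choose r : ℝ) *
        Real.exp (((1 - (1 - p) ^ r) ^ 2)⁻¹ * NN (1 - p) θ r * (1 - p) ^ (r + m)) +
       2 ^ r * ((NN (1 - p) θ r : ℝ) + 1) ^ m *
        Real.exp (((1 - (1 - p) ^ r) ^ 2)⁻¹ * NN (1 - p) θ r * (1 - p) ^ r))) :
    Tendsto P atTop (𝓝 1) := by
  set q := 1 - p with hq
  have hq0 : 0 < q := by linarith
  have hq1 : q < 1 := by linarith
  have hl := lam_pos hq0 hq1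
  set lam := -Real.log q with hlam
  set N : ℕ → ℕ := NN q θ with hN
  set δ : ℝ := (1 - θ) / 2 with hδ
  have hδ0 : 0 < δ := by rw [hδ]; linarith
  set m : ℕ → ℕ := fun r => ⌊δ * r⌋₊ with hm
  -- basic limits
  have h1 : Tendsto (fun r : ℕ => Real.log (N r) / r) atTop (𝓝 lam) :=
    tendsto_log_div hq0 (c := θ * lam) (by positivity) (fun r => (N r : ℝ))
      (NN_ratio hq0 hq1 hθ0)
  have h2 : Tendsto (fun r : ℕ => Real.log ((N r : ℝ) + 1) / r) atTop (𝓝 lam) :=
    tendsto_log_div hq0 (c := θ * lam) (by positivity) (fun r => (N r : ℝ) + 1)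
      (NN_ratio' hq0 hq1 hθ0)
  have h3 : Tendsto (fun r : ℕ => (N r : ℝ) * q ^ r / (r : ℝ) ^ 2) atTop (𝓝 (θ * lam)) :=
    NN_ratio hq0 hq1 hθ0
  have h4 : Tendsto (fun r : ℕ => (1 : ℝ) / r) atTop (𝓝 0) := tendsto_one_div_atTop_nhds_zero_nat
  have h5 := tendsto_qpow hq0 hq1
  have hm1 : Tendsto (fun r : ℕ => (m r : ℝ) / r) atTop (𝓝 δ) := by
    have := (tendsto_nat_floor_mul_div_atTop hδ0.le).comp (tendsto_natCast_atTop_atTop (R := ℝ))
    exact this
  have hGam : Tendsto (fun r : ℕ => ((1 - q ^ r) ^ 2)⁻¹) atTop (𝓝 1) := by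
    have h6 : Tendsto (fun r : ℕ => ((1 - q ^ r) ^ 2)⁻¹) atTop (𝓝 (((1 - 0) ^ 2)⁻¹)) :=
      (((h5.const_sub 1).pow 2).inv₀ (by norm_num))
    simpa using h6
  -- the exponent of the second term
  set E : ℕ → ℝ := fun r => (r * Real.log 2 + m r * Real.log ((N r : ℝ) + 1) +
    ((1 - q ^ r) ^ 2)⁻¹ * N r * q ^ r) - (r * Real.log (N r) - r * Real.log 2 - r * Real.log r)
    with hE
  have hElim : Tendsto (fun r : ℕ => E r / (r : ℝ) ^ 2) atTop
      (𝓝 ((Real.log 2 * 0 + δ * lam + 1 * (θ * lam)) -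
        (lam - Real.log 2 * 0 - 0))) := by
    refine ((((h4.const_mul (Real.log 2)).add (hm1.mul h2)).add (hGam.mul h3)).sub
      ((h1.sub (h4.const_mul (Real.log 2))).sub tendsto_log_div_nat)).congr' ?_
    filter_upwards [eventually_gt_atTop 0] with r hr
    have hrpos : (0 : ℝ) < r := by exact_mod_cast hr
    have hqr1 : q ^ r < 1 := pow_lt_one₀ hq0.le hq1 (by omega)
    have : (1 - q ^ r) ≠ 0 := by linarith
    simp only [hE]
    field_simp
  have hneg : ((Real.log 2 * 0 + δ * lam + 1 * (θ * lam)) -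
        (lam - Real.log 2 * 0 - 0)) < 0 := by
    have : ((Real.log 2 * 0 + δ * lam + 1 * (θ * lam)) -
        (lam - Real.log 2 * 0 - 0)) = -(lam * ((1 - θ) / 2)) := by rw [hδ]; ring
    rw [this]
    have : 0 < lam * ((1 - θ) / 2) := mul_pos hl (by linarith)
    linarith
  have hexp2 := exp_tendsto_zero hneg hElim
  -- first exponential
  have hmtop : Tendsto m atTop atTop := by
    apply tendsto_nat_floor_atTop.comp
    exact tendsto_natCast_atTop_atTop.const_mul_atTop hδ0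
  have hexp1 : Tendsto (fun r : ℕ => Real.exp (((1 - q ^ r) ^ 2)⁻¹ * N r * q ^ (r + m r))) atTop
      (𝓝 1) := by
    have h7 : Tendsto (fun r : ℕ => (r : ℝ) ^ 2 * q ^ (m r)) atTop (𝓝 0) := by
      have h8 : Tendsto (fun k : ℕ => ((k : ℝ) + 1) ^ 2 * q ^ k) atTop (𝓝 0) := by
        have h9 := tendsto_sq_mul_pow hq0 hq1
        have h10 := tendsto_mul_pow hq0 hq1
        have h11 : Tendsto (fun k : ℕ => (k : ℝ) ^ 2 * q ^ k + 2 * ((k : ℝ) * q ^ k) + q ^ k) atTop
            (𝓝 (0 + 2 * 0 + 0)) := (h9.add (h10.const_mul 2)).add h5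
        simp only [mul_zero, add_zero] at h11
        refine h11.congr fun k => ?_
        ring
      have h12 := (h8.comp hmtop).const_mul ((δ⁻¹) ^ 2)
      rw [mul_zero] at h12
      refine squeeze_zero (fun r => by positivity) (fun r => ?_) h12
      have h13 : δ * r ≤ m r + 1 := (Nat.lt_floor_add_one (δ * r)).le
      have h14 : (r : ℝ) ≤ δ⁻¹ * (m r + 1) := by
        rw [inv_mul_eq_div, le_div_iff₀ hδ0]; linarith
      have h15 : (r : ℝ) ^ 2 ≤ (δ⁻¹ * (m r + 1)) ^ 2 :=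
        pow_le_pow_left₀ (by positivity) h14 2
      calc (r : ℝ) ^ 2 * q ^ (m r) ≤ (δ⁻¹ * (m r + 1)) ^ 2 * q ^ (m r) :=
            mul_le_mul_of_nonneg_right h15 (by positivity)
        _ = (δ⁻¹) ^ 2 * (((m r : ℝ) + 1) ^ 2 * q ^ (m r)) := by ring
    have h16 : Tendsto (fun r : ℕ => ((1 - q ^ r) ^ 2)⁻¹ * N r * q ^ (r + m r)) atTop (𝓝 0) := by
      have h17 := (hGam.mul h3).mul h7
      rw [mul_zero] at h17
      refine h17.congr' ?_
      filter_upwards [eventually_gt_atTop 0] with r hr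
      have hrpos : (0 : ℝ) < r := by exact_mod_cast hr
      rw [pow_add]
      field_simp
    have := (Real.continuous_exp.tendsto 0).comp h16
    rw [Real.exp_zero] at this
    exact this
  -- the prefactor
  have hpre : Tendsto (fun r : ℕ => (1 - q ^ r) ^ (2 * r)) atTop (𝓝 1) := by
    have h18 : Tendsto (fun r : ℕ => 1 - 2 * ((r : ℝ) * q ^ r)) atTop (𝓝 (1 - 2 * 0)) :=
      ((tendsto_mul_pow hq0 hq1).const_mul 2).const_sub 1
    simp only [mul_zero, sub_zero] at h18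
    refine tendsto_of_tendsto_of_tendsto_of_le_of_le h18 tendsto_const_nhds ?_ ?_
    · intro r
      have hqr1 : q ^ r ≤ 1 := pow_le_one₀ hq0.le hq1.le
      have := one_add_mul_le_pow (a := -(q ^ r)) (by linarith) (2 * r)
      push_cast at this
      have h19 : (1 + -(q ^ r)) = 1 - q ^ r := by ring
      rw [h19] at this
      simp only []
      linarith
    · intro r
      have hqr1 : q ^ r ≤ 1 := pow_le_one₀ hq0.le hq1.le
      have hqr0 : 0 < q ^ r := pow_pos hq0 r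
      exact pow_le_one₀ (by linarith) (by linarith)
  have hlow : Tendsto (fun r : ℕ => (1 - q ^ r) ^ (2 * r) /
      (Real.exp (((1 - q ^ r) ^ 2)⁻¹ * N r * q ^ (r + m r)) + Real.exp (E r))) atTop
      (𝓝 (1 / (1 + 0))) := hpre.div (hexp1.add hexp2) (by norm_num)
  rw [add_zero, div_one] at hlow
  refine tendsto_of_tendsto_of_tendsto_of_le_of_le' hlow tendsto_const_nhds ?_
    (Eventually.of_forall hP1)
  filter_upwards [eventually_ge_atTop 1, eventually_le_NN hq0 hq1 hθ0 2 1] with r hr1 hrN0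
  have hrN : 2 * r + 1 ≤ N r := hrN0
  have hh := hP r hr1 (by omega) (m r)
  have hC := choose_lower (N r) r (by omega) hr1
  have hNpos : (0 : ℝ) < N r := by
    have : 0 < N r := by omega
    exact_mod_cast this
  set C : ℝ := ((N r).choose r : ℝ) with hCdef
  have hCpos : 0 < C := lt_of_lt_of_le (Real.exp_pos _) hC
  have hterm2 : 2 ^ r * ((N r : ℝ) + 1) ^ (m r) *
      Real.exp (((1 - q ^ r) ^ 2)⁻¹ * N r * q ^ r) ≤ C * Real.exp (E r) := by
    have e0 : (2 : ℝ) ^ r = Real.exp (r * Real.log 2) := by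
      rw [mul_comm, ← Real.rpow_def_of_pos (by norm_num), Real.rpow_natCast]
    have e2 : ((N r : ℝ) + 1) ^ (m r) = Real.exp (m r * Real.log ((N r : ℝ) + 1)) := by
      rw [mul_comm (m r : ℝ), ← Real.rpow_def_of_pos (by linarith), Real.rpow_natCast]
    rw [e0, e2, ← Real.exp_add, ← Real.exp_add]
    have e4 : Real.exp (E r) * Real.exp (r * Real.log (N r) - r * Real.log 2 - r * Real.log r) =
        Real.exp (r * Real.log 2 + m r * Real.log ((N r : ℝ) + 1) +
          ((1 - q ^ r) ^ 2)⁻¹ * N r * q ^ r) := by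
      rw [← Real.exp_add]
      congr 1
      simp only [hE]
      ring
    rw [← e4, mul_comm C]
    exact mul_le_mul_of_nonneg_left hC (Real.exp_pos _).le
  have hPr0 : 0 ≤ P r := by
    by_contra hneg2
    push Not at hneg2
    have hqr1 : q ^ r < 1 := pow_lt_one₀ hq0.le hq1 (by omega)
    have h20 : 0 < C * (1 - q ^ r) ^ (2 * r) := mul_pos hCpos (pow_pos (by linarith) _)
    have h21 : 0 < (C * Real.exp (((1 - q ^ r) ^ 2)⁻¹ * N r * q ^ (r + m r)) +
       2 ^ r * ((N r : ℝ) + 1) ^ (m r) *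
        Real.exp (((1 - q ^ r) ^ 2)⁻¹ * N r * q ^ r)) := by positivity
    have := mul_neg_of_neg_of_pos hneg2 h21
    linarith
  rw [div_le_iff₀ (by positivity)]
  have h22 : C * (1 - q ^ r) ^ (2 * r) ≤ C * (P r *
      (Real.exp (((1 - q ^ r) ^ 2)⁻¹ * N r * q ^ (r + m r)) + Real.exp (E r))) := by
    refine hh.trans ?_
    have h23 := mul_le_mul_of_nonneg_left hterm2 hPr0
    nlinarith
  exact le_of_mul_le_mul_left h22 hCpos

end asymp

end Pool.Agent.MBDom
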