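import Mathlib
import Pool.Agent.Lib.MP_f1bc00_pr.Asymp

set_option autoImplicit false
set_option linter.unusedSectionVars false
set_option linter.deprecated false

open Filter Topology MeasureTheory

namespace Pool.Agent.MBDom

theorem main_real (b : ℕ) (hb : 1 ≤ b) (p : unitInterval) (hp0 : 0 < (p : ℝ)) (hp1 : (p : ℝ) < 1) :
    ∃ u : ℕ → ℕ, Tendsto u atTop atTop ∧
      Tendsto (fun k => (SimpleGraph.binomialRandom (Fin (u k)) p).real
        {G | gammaMB G b = (⌈(dominationNumber G : ℚ) / b⌉₊ : ℕ) ∨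
             gammaMB' G b = (⌈(dominationNumber G : ℚ) / b⌉₊ : ℕ)}) atTop (𝓝 0) := by
  obtain ⟨θ, hθa, hθ1⟩ : ∃ θ : ℝ, 1 / (1 + (p : ℝ)) < θ ∧ θ < 1 := by
    apply exists_between
    rw [div_lt_one (by linarith)]
    linarith
  have hθ0 : 0 < θ := lt_trans (by positivity) hθa
  have hθ : 1 < (1 + (p : ℝ)) * θ := by
    rw [div_lt_iff₀ (by linarith)] at hθa
    linarith
  have hq0 : 0 < 1 - (p : ℝ) := by linarith
  have hq1 : 1 - (p : ℝ) < 1 := by linarith
  have hrk : Tendsto (fun k : ℕ => b * (k + 2)) atTop atTop := by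
    refine tendsto_atTop_mono (fun k => ?_) tendsto_id
    simp only [id]
    nlinarith
  refine ⟨fun k => NN (1 - (p : ℝ)) θ (b * (k + 2)), ?_, ?_⟩
  · have h := (NN_tendsto hq0 hq1 hθ0).comp hrk
    exact tendsto_natCast_atTop_iff.mp h
  · -- the probability that there is a dominating set of size r
    set P : ℕ → ℝ := fun r => (SimpleGraph.binomialRandom (Fin (NN (1 - (p : ℝ)) θ r)) p).real
      {G | ∃ D : Finset (Fin (NN (1 - (p : ℝ)) θ r)), IsDominating G D ∧ D.card = r} with hPdef
    have hP : Tendsto P atTop (𝓝 1) := by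
      refine second_moment_tendsto (p : ℝ) hp0 hp1 hθ0 hθ1 P (fun r => measureReal_le_one) ?_
      intro r hr1 hr m
      have := second_moment (V := Fin (NN (1 - (p : ℝ)) θ r)) p hp0 hp1 r m hr1
        (by rw [Fintype.card_fin]; exact hr)
      rw [Fintype.card_fin] at this
      exact this
    have hB := first_moment_tendsto (p : ℝ) hp0 hp1 hθ0 hθ b
    have hsum := ((hP.const_sub 1).add hB).comp hrk
    rw [sub_self, add_zero] at hsum
    refine squeeze_zero' (Eventually.of_forall fun k => measureReal_nonneg) ?_ hsum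
    have hev := hrk.eventually (eventually_le_NN hq0 hq1 hθ0 2 (b + 2))
    filter_upwards [hev] with k hk
    have hr1 : 1 ≤ b * (k + 2) := by nlinarith
    have hbp := bad_pairs_bound (V := Fin (NN (1 - (p : ℝ)) θ (b * (k + 2)))) p b (b * (k + 2)) hr1
      (by rw [Fintype.card_fin]; omega)
    rw [Fintype.card_fin] at hbp
    have hsub : {G : SimpleGraph (Fin (NN (1 - (p : ℝ)) θ (b * (k + 2)))) |
          gammaMB G b = (⌈(dominationNumber G : ℚ) / b⌉₊ : ℕ) ∨
          gammaMB' G b = (⌈(dominationNumber G : ℚ) / b⌉₊ : ℕ)} ⊆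
        {G | ∃ D : Finset (Fin (NN (1 - (p : ℝ)) θ (b * (k + 2)))),
          IsDominating G D ∧ D.card = b * (k + 2)}ᶜ ∪
        {G | ¬ ∀ A B : Finset (Fin (NN (1 - (p : ℝ)) θ (b * (k + 2)))), IsDominating G A →
          IsDominating G B → A.card = b * (k + 2) → B.card = b * (k + 2) →
          b * (k + 2) ≤ (A ∩ B).card + b → A = B} := by
      intro G hG
      by_contra hcon
      rw [Set.mem_union, not_or] at hcon
      obtain ⟨h1, h2⟩ := hcon
      rw [Set.mem_compl_iff, not_not] at h1
      rw [Set.mem_setOf_eq, not_not] at h2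
      have := gamma_ne (G := G) hb (by omega : 2 ≤ k + 2)
        (by rw [Fintype.card_fin]; omega) h2 h1
      rcases hG with h | h
      · exact this.1 h
      · exact this.2 h
    refine (measureReal_mono hsub (measure_ne_top _ _)).trans ?_
    refine (measureReal_union_le _ _).trans ?_
    rw [probReal_compl_eq_one_sub (measurableSet_graph _)]
    simp only [Function.comp, hPdef]
    gcongr

end Pool.Agent.MBDom
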